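import Pool.Agent.Run7.h787.SZ.Bridge

/-!
Stark's conjecture for the units `exp (- 2 ζ'(0, A))`: removal of prime factors of the modulus.
-/

open NumberField IsDedekindDomain

open scoped Classical

namespace Pool.Agent.Results.MP_343f43_nt.StarkUnitsPrimeRemoval

open Pool.Agent.Run7.h787.SZ

/-- `K` is a number field inside the real numbers with a second real embedding `w` (for instance a
real quadratic field), `H ⊆ ℝ` is a finite abelian extension of `K` which is unramified outside `S`,
and `S` contains the prime ideals over `2`. If Stark's conjecture (the numbers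
`exp (- 2 ζ_S'(g, 0))` are conjugate units, of absolute value one at the other infinite places) holds
for the layers of the cyclotomic `ℤ₂`-extension of `H` and all `S ∪ R`, where `R` consists of `r`
prime ideals outside `S ∪ B`, then it holds for `H`, its layers, and `S`. -/
theorem result (K : Type) [Field K] [NumberField K] [Algebra K ℝ] (w : K →+* ℝ)
    (hw : w ≠ algebraMap K ℝ) (S B : Finset (HeightOneSpectrum (𝓞 K)))
    (H : IntermediateField K ℝ) (r : ℕ) (hS : Over2 S) (hH : Allowed H S)
    (h : ∀ R : Finset (HeightOneSpectrum (𝓞 K)), Disjoint R (S ∪ B) → R.card = r →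
      ∀ n, WeakZ w (layer H n) (S ∪ R)) :
    WeakZ w H S ∧ ∀ n, WeakZ w (layer H n) S :=
  main_weak w hw S B H r hS hH h

end Pool.Agent.Results.MP_343f43_nt.StarkUnitsPrimeRemoval
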